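import Pool.Agent.H381R4.CM.Stubs

/-! CLO: complete mixability with zero sum is closed under weak limits of tight sequences. -/

set_option autoImplicit false
open MeasureTheory Matrix Filter Topology
open scoped ENNReal BigOperators Pointwise

namespace Pool.Agent.H381CM

theorem T_CLO : S_CLO := by
  intro d n hn μ ν hμ hν hcm htight hlim
  choose P hPp hPm hPs using hcm
  let PJ : ℕ → ProbabilityMeasure (Fin n → V d) := fun j => ⟨P j, hPp j⟩
  let MJ : ℕ → ProbabilityMeasure (V d) := fun j => ⟨μ j, hμ j⟩
  let NN : ProbabilityMeasure (V d) := ⟨ν, hν⟩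
  have hev : ∀ i : Fin n, Continuous (fun x : Fin n → V d => x i) := fun i => continuous_apply i
  have htS : IsTightMeasureSet {((m : ProbabilityMeasure (Fin n → V d)) : Measure (Fin n → V d)) |
      m ∈ Set.range PJ} := by
    rw [isTightMeasureSet_iff_exists_isCompact_measure_compl_le]
    intro ε hε
    have hnε : 0 < ε / n := by
      apply ENNReal.div_pos hε.ne'
      exact ENNReal.natCast_ne_top n
    obtain ⟨K, hK, hKμ⟩ := htight (ε / n) hnε
    refine ⟨Set.pi Set.univ (fun _ => K), isCompact_univ_pi (fun _ => hK), ?_⟩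
    rintro _ ⟨m, ⟨j, rfl⟩, rfl⟩
    have hKm : MeasurableSet Kᶜ := hK.isClosed.measurableSet.compl
    calc (P j) (Set.pi Set.univ (fun _ => K))ᶜ
        ≤ (P j) (⋃ i, (fun x : Fin n → V d => x i) ⁻¹' Kᶜ) := by
          apply measure_mono
          intro x hx
          simp only [Set.mem_compl_iff, Set.mem_pi, Set.mem_univ, true_implies, not_forall] at hx
          obtain ⟨i, hi⟩ := hx
          exact Set.mem_iUnion.mpr ⟨i, hi⟩
      _ ≤ ∑ i, (P j) ((fun x : Fin n → V d => x i) ⁻¹' Kᶜ) := measure_iUnion_fintype_le _ _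
      _ = ∑ _i : Fin n, μ j Kᶜ := by
          refine Finset.sum_congr rfl (fun i _ => ?_)
          rw [← hPm j i, Measure.map_apply (hev i).measurable hKm]
      _ ≤ ∑ _i : Fin n, ε / n := Finset.sum_le_sum (fun i _ => hKμ j)
      _ = n * (ε / n) := by
          rw [Finset.sum_const, Finset.card_univ, Fintype.card_fin, nsmul_eq_mul]
      _ ≤ ε := ENNReal.mul_div_le
  have hcomp := isCompact_closure_of_isTightMeasureSet htS
  have hU : ((hyperfilter ℕ).map PJ : Ultrafilter (ProbabilityMeasure (Fin n → V d))) ≤
      𝓟 (closure (Set.range PJ)) := by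
    rw [le_principal_iff]
    apply mem_of_superset _ subset_closure
    exact mem_map.mpr (univ_mem' (fun j => Set.mem_range_self j))
  obtain ⟨Q, -, hQ⟩ := hcomp.ultrafilter_le_nhds _ hU
  have hT : Tendsto PJ (hyperfilter ℕ : Filter ℕ) (𝓝 Q) := hQ
  have hat : (hyperfilter ℕ : Filter ℕ) ≤ atTop := Nat.hyperfilter_le_atTop
  refine ⟨(Q : Measure (Fin n → V d)), inferInstance, ?_, ?_⟩
  · intro i
    have h1 := ProbabilityMeasure.tendsto_map_of_tendsto_of_continuous PJ Q hT (hev i)
    have h2 : ∀ j, (PJ j).map (hev i).measurable.aemeasurable = MJ j := by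
      intro j
      apply Subtype.ext
      exact hPm j i
    simp only [h2] at h1
    have h3 : Tendsto MJ (hyperfilter ℕ : Filter ℕ) (𝓝 NN) :=
      (ProbabilityMeasure.tendsto_iff_forall_integral_tendsto.mpr hlim).mono_left hat
    have h4 := tendsto_nhds_unique h1 h3
    exact congrArg (fun m : ProbabilityMeasure (V d) => (m : Measure (V d))) h4
  · have hs : Continuous (fun x : Fin n → V d => ∑ i, x i) :=
      continuous_finsetSum _ (fun i _ => continuous_apply i)
    have h1 := ProbabilityMeasure.tendsto_map_of_tendsto_of_continuous PJ Q hT hs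
    let D : ProbabilityMeasure (V d) := ⟨Measure.dirac 0, inferInstance⟩
    have h2 : ∀ j, (PJ j).map hs.measurable.aemeasurable = D := by
      intro j
      apply Subtype.ext
      show (P j).map (fun x : Fin n → V d => ∑ i, x i) = Measure.dirac 0
      rw [Measure.map_congr (hPs j), Measure.map_const, measure_univ, one_smul]
    simp only [h2] at h1
    have h4 := tendsto_nhds_unique h1 tendsto_const_nhds
    have h5 : (Q : Measure (Fin n → V d)).map (fun x : Fin n → V d => ∑ i, x i) =
        Measure.dirac 0 :=
      congrArg (fun m : ProbabilityMeasure (V d) => (m : Measure (V d))) h4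
    have h6 : (Q : Measure (Fin n → V d)).map (fun x : Fin n → V d => ∑ i, x i) {0}ᶜ = 0 := by
      rw [h5]
      simp
    rw [Measure.map_apply hs.measurable (measurableSet_singleton _).compl] at h6
    exact h6

end Pool.Agent.H381CM
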